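import Mathlib

set_option autoImplicit false

/-!
# Reduction of 3-edge-connected multigraphs to cubic ones

`reduce_cubic`: if every loopless cubic 3-edge-connected multigraph has a colouring with `n`
colours such that every cut keeps two edges outside every colour, then every 3-edge-connected
multigraph has one.  A vertex `z` of degree at least 4 is split along two of its edges which do
not lie in a common 3-edge-cut.
-/

namespace Pool.Agent.Lib.P5f333b

open Finset

section
variable {V E : Type*}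

/-- the edge `e` crosses `S` -/
def Crs (s t : E → V) (S : Set V) (e : E) : Prop := ¬ (s e ∈ S ↔ t e ∈ S)

lemma crs_compl (s t : E → V) (S : Set V) (e : E) : Crs s t Sᶜ e ↔ Crs s t S e := by
  unfold Crs
  simp only [Set.mem_compl_iff]
  tauto

open Classical in
/-- the number of edges crossing `S` -/
noncomputable def dcut [Fintype E] (s t : E → V) (S : Set V) : ℕ :=
  ∑ e, if Crs s t S e then 1 else 0

variable [Fintype E]

lemma dcut_eq_ncard (s t : E → V) (S : Set V) :
    dcut s t S = {e | ¬ (s e ∈ S ↔ t e ∈ S)}.ncard := by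
  classical
  unfold dcut
  rw [Finset.sum_boole, Set.ncard_eq_toFinset_card', Nat.cast_id]
  congr 1
  ext e
  simp only [Finset.mem_filter, Finset.mem_univ, true_and, Set.mem_toFinset, Set.mem_ofPred_eq]
  exact Iff.rfl

lemma dcut_compl (s t : E → V) (S : Set V) : dcut s t Sᶜ = dcut s t S := by
  classical
  unfold dcut
  exact Finset.sum_congr rfl fun e _ => by rw [if_congr (crs_compl s t S e) rfl rfl]

lemma dcut_submod (s t : E → V) (S T : Set V) :
    dcut s t (S ∩ T) + dcut s t (S ∪ T) ≤ dcut s t S + dcut s t T := by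
  classical
  unfold dcut
  rw [← Finset.sum_add_distrib, ← Finset.sum_add_distrib]
  refine Finset.sum_le_sum fun e _ => ?_
  unfold Crs
  simp only [Set.mem_inter_iff, Set.mem_union]
  by_cases h1 : s e ∈ S <;> by_cases h2 : s e ∈ T <;> by_cases h3 : t e ∈ S <;>
    by_cases h4 : t e ∈ T <;> simp [h1, h2, h3, h4]

/-- 3-edge-connectivity in cut form -/
def TEC (s t : E → V) : Prop := ∀ S : Set V, S.Nonempty → Sᶜ.Nonempty → 3 ≤ dcut s t S

/-- two edges at `z` not in a common 3-edge-cut -/
lemma exists_pair [Fintype V] (s t : E → V) (h3 : TEC s t) (z : V)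
    (hz : 4 ≤ dcut s t {z}) :
    ∃ e1 e2 : E, e1 ≠ e2 ∧ Crs s t {z} e1 ∧ Crs s t {z} e2 ∧
      ∀ S : Set V, z ∉ S → Crs s t S e1 → Crs s t S e2 → 4 ≤ dcut s t S := by
  classical
  by_contra hno
  push Not at hno
  -- pick an edge at z
  have hpos : ∃ e, Crs s t {z} e := by
    by_contra h
    push Not at h
    have : dcut s t {z} = 0 := by
      unfold dcut
      exact Finset.sum_eq_zero fun e _ => if_neg (h e)
    omega
  obtain ⟨e, he⟩ := hpos
  -- the other end lies in every set missing z that is crossed by the edge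
  have hend : ∀ f, Crs s t {z} f → ∃ u, u ≠ z ∧ ∀ S : Set V, z ∉ S → (Crs s t S f ↔ u ∈ S) := by
    intro f hf
    unfold Crs at hf
    simp only [Set.mem_singleton_iff] at hf
    by_cases h1 : s f = z
    · have h2 : t f ≠ z := by intro h2; exact hf (by simp [h1, h2])
      refine ⟨t f, h2, fun S hS => ?_⟩
      unfold Crs
      rw [h1]
      tauto
    · have h2 : t f = z := by
        by_contra h2
        exact hf (by simp [h1, h2])
      refine ⟨s f, h1, fun S hS => ?_⟩
      unfold Crs
      rw [h2]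
      tauto
  obtain ⟨u, huz, hu⟩ := hend e he
  have hge : ∀ S : Set V, z ∉ S → u ∈ S → 3 ≤ dcut s t S := fun S hS hS' =>
    h3 S ⟨u, hS'⟩ ⟨z, hS⟩
  -- the family of 3-cuts through e
  set fam : Finset (Finset V) := Finset.univ.filter fun S : Finset V =>
    z ∉ S ∧ u ∈ S ∧ dcut s t (S : Set V) = 3 with hfam
  have hother : ∀ f, Crs s t {z} f → f ≠ e → ∃ S ∈ fam, Crs s t (S : Set V) f := by
    intro f hf hfe
    obtain ⟨S, hzS, h1, h2, h4⟩ := hno e f (Ne.symm hfe) he hf
    have huS : u ∈ S := (hu S hzS).1 h1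
    have hmem : ∀ x, x ∈ S.toFinite.toFinset ↔ x ∈ S := fun x => Set.Finite.mem_toFinset _
    have hcoe : ((S.toFinite.toFinset : Finset V) : Set V) = S := Set.Finite.coe_toFinset _
    refine ⟨S.toFinite.toFinset, ?_, by rw [hcoe]; exact h2⟩
    rw [hfam, Finset.mem_filter]
    refine ⟨Finset.mem_univ _, fun h => hzS ((hmem z).1 h), (hmem u).2 huS, ?_⟩
    have := hge S hzS huS
    rw [hcoe]
    omega
  -- there is a second edge
  have hsec : ∃ f, Crs s t {z} f ∧ f ≠ e := by
    by_contra h
    push Not at h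
    have : dcut s t {z} ≤ 1 := by
      unfold dcut
      calc (∑ f, if Crs s t {z} f then 1 else 0) ≤ ∑ f, if f = e then 1 else 0 := by
            refine Finset.sum_le_sum fun f _ => ?_
            by_cases hf : Crs s t {z} f
            · rw [if_pos hf, if_pos (h f hf)]
            · rw [if_neg hf]; exact Nat.zero_le _
        _ = 1 := by simp
    omega
  obtain ⟨f0, hf0, hf0e⟩ := hsec
  obtain ⟨S0, hS0, -⟩ := hother f0 hf0 hf0e
  obtain ⟨M, hM, hmax⟩ := Finset.exists_max_image fam Finset.card ⟨S0, hS0⟩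
  have hMz : z ∉ M := (Finset.mem_filter.1 hM).2.1
  have hMu : u ∈ M := (Finset.mem_filter.1 hM).2.2.1
  have hM3 : dcut s t (M : Set V) = 3 := (Finset.mem_filter.1 hM).2.2.2
  have hall : ∀ f, Crs s t {z} f → Crs s t (M : Set V) f := by
    intro f hf
    by_cases hfe : f = e
    · rw [hfe]
      exact (hu _ (by simpa using hMz)).2 (by simpa using hMu)
    · obtain ⟨S, hS, hSf⟩ := hother f hf hfe
      have hSz : z ∉ S := (Finset.mem_filter.1 hS).2.1
      have hSu : u ∈ S := (Finset.mem_filter.1 hS).2.2.1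
      have hS3 : dcut s t (S : Set V) = 3 := (Finset.mem_filter.1 hS).2.2.2
      have hun : S ∪ M ∈ fam := by
        rw [hfam, Finset.mem_filter]
        refine ⟨Finset.mem_univ _, by simp [hSz, hMz], by simp [hSu], ?_⟩
        have h1 := dcut_submod s t (S : Set V) (M : Set V)
        have h2 := hge ((S : Set V) ∩ (M : Set V)) (by simp [hSz]) (by simp [hSu, hMu])
        have h4 := hge ((S : Set V) ∪ (M : Set V)) (by simp [hSz, hMz]) (by simp [hSu])
        rw [Finset.coe_union]
        omega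
      have hle := hmax _ hun
      have hsub : M = S ∪ M :=
        Finset.eq_of_subset_of_card_le Finset.subset_union_right hle
      obtain ⟨w, hwz, hw⟩ := hend f hf
      have hwS : w ∈ (S : Set V) := (hw _ (by simpa using hSz)).1 hSf
      refine (hw _ (by simpa using hMz)).2 ?_
      rw [hsub]
      simp only [Finset.coe_union]
      exact Or.inl hwS
  have hle : dcut s t {z} ≤ dcut s t (M : Set V) := by
    unfold dcut
    refine Finset.sum_le_sum fun f _ => ?_
    by_cases hf : Crs s t {z} f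
    · rw [if_pos hf, if_pos (hall f hf)]
    · rw [if_neg hf]; exact Nat.zero_le _
  omega

/-! ### splitting a vertex -/

open Classical in
/-- the new end of an edge: at `none` if the edge is `e1` or `e2` and the old end is `z` -/
noncomputable def mv (e1 e2 : E) (z : V) (e : E) (x : V) : Option V :=
  if (e = e1 ∨ e = e2) ∧ x = z then none else some x

/-- ends in the split graph; the new edge `none` joins `some z` and `none` -/
noncomputable def spS (s : E → V) (e1 e2 : E) (z : V) : Option E → Option V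
  | none => some z
  | some e => mv e1 e2 z e (s e)

noncomputable def spT (t : E → V) (e1 e2 : E) (z : V) : Option E → Option V
  | none => none
  | some e => mv e1 e2 z e (t e)

/-- the projection of the split graph -/
def proj (z : V) : Option V → V
  | none => z
  | some x => x

omit [Fintype E] in
lemma proj_mv (e1 e2 : E) (z : V) (e : E) (x : V) : proj z (mv e1 e2 z e x) = x := by
  unfold mv
  split_ifs with h
  · exact h.2.symm
  · rfl

omit [Fintype E] in
lemma crs_proj_some (s t : E → V) (e1 e2 : E) (z : V) (S : Set V) (e : E) :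
    Crs (spS s e1 e2 z) (spT t e1 e2 z) (proj z ⁻¹' S) (some e) ↔ Crs s t S e := by
  unfold Crs
  simp only [Set.mem_preimage, spS, spT, proj_mv]

omit [Fintype E] in
lemma crs_proj_none (s t : E → V) (e1 e2 : E) (z : V) (S : Set V) :
    ¬ Crs (spS s e1 e2 z) (spT t e1 e2 z) (proj z ⁻¹' S) none := by
  unfold Crs
  simp [spS, spT, proj]

/-- cuts of the split graph which do not separate `z` from the new vertex -/
lemma dcut_same (s t : E → V) (e1 e2 : E) (z : V) (S : Set V) :
    dcut (spS s e1 e2 z) (spT t e1 e2 z) (proj z ⁻¹' S) = dcut s t S := by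
  classical
  unfold dcut
  rw [Fintype.sum_option, if_neg (crs_proj_none s t e1 e2 z S), zero_add]
  exact Finset.sum_congr rfl fun e _ => by rw [if_congr (crs_proj_some s t e1 e2 z S e) rfl rfl]

open Classical in
/-- cuts of the split graph which contain the new vertex and not `z` -/
lemma dcut_sep (s t : E → V) (e1 e2 : E) (z : V) (hne : e1 ≠ e2)
    (h1 : Crs s t {z} e1) (h2 : Crs s t {z} e2) (S : Set (Option V)) (hn : none ∈ S)
    (hz : some z ∉ S) :
    dcut (spS s e1 e2 z) (spT t e1 e2 z) S + 2 * (if Crs s t (some ⁻¹' S) e1 then 1 else 0)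
      + 2 * (if Crs s t (some ⁻¹' S) e2 then 1 else 0) = dcut s t (some ⁻¹' S) + 3 := by
  have hzS : z ∉ (some ⁻¹' S : Set V) := hz
  have hrest : ∀ e, e ≠ e1 → e ≠ e2 →
      (Crs (spS s e1 e2 z) (spT t e1 e2 z) S (some e) ↔ Crs s t (some ⁻¹' S) e) := by
    intro e he1 he2
    unfold Crs
    simp [spS, spT, mv, he1, he2]
  have hspec : ∀ e, (e = e1 ∨ e = e2) → Crs s t {z} e →
      (Crs (spS s e1 e2 z) (spT t e1 e2 z) S (some e) ↔ ¬ Crs s t (some ⁻¹' S) e) := by
    intro e he hc
    unfold Crs at hc ⊢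
    simp only [Set.mem_singleton_iff, spS, spT, mv, Set.mem_preimage] at hc ⊢
    by_cases hs : s e = z
    · have ht : t e ≠ z := fun h => hc (by simp [hs, h])
      simp [he, hs, ht, hn, hz]
    · have ht : t e = z := by
        by_contra h
        exact hc (by simp [hs, h])
      simp [he, hs, ht, hn, hz]
  have hnone : Crs (spS s e1 e2 z) (spT t e1 e2 z) S none := by
    unfold Crs
    simp [spS, spT, hn, hz]
  unfold dcut
  rw [Fintype.sum_option, if_pos hnone]
  have hsplit : ∀ g : E → ℕ, ∑ e, g e = g e1 + g e2 + ∑ e ∈ (Finset.univ.erase e1).erase e2, g e := by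
    intro g
    rw [← Finset.add_sum_erase _ _ (Finset.mem_univ e1),
      ← Finset.add_sum_erase _ _ (Finset.mem_erase.2 ⟨hne.symm, Finset.mem_univ e2⟩), add_assoc]
  rw [hsplit, hsplit (fun e => if Crs s t (some ⁻¹' S) e then 1 else 0)]
  have hsum : ∑ e ∈ (Finset.univ.erase e1).erase e2,
      (if Crs (spS s e1 e2 z) (spT t e1 e2 z) S (some e) then 1 else 0) =
      ∑ e ∈ (Finset.univ.erase e1).erase e2, (if Crs s t (some ⁻¹' S) e then 1 else 0) := by
    refine Finset.sum_congr rfl fun e he => ?_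
    have h3 := Finset.mem_erase.1 he
    have h4 := Finset.mem_erase.1 h3.2
    rw [if_congr (hrest e h4.1 h3.1) rfl rfl]
  rw [hsum, if_congr (hspec e1 (Or.inl rfl) h1) rfl rfl, if_congr (hspec e2 (Or.inr rfl) h2) rfl rfl]
  by_cases c1 : Crs s t (some ⁻¹' S) e1 <;> by_cases c2 : Crs s t (some ⁻¹' S) e2 <;>
    simp only [c1, c2, if_true, if_false, not_true, not_false_iff] <;> ring

/-- the split graph is 3-edge-connected -/
lemma tec_split (s t : E → V) (h3 : TEC s t) (e1 e2 : E) (z : V) (hne : e1 ≠ e2)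
    (h1 : Crs s t {z} e1) (h2 : Crs s t {z} e2)
    (hp : ∀ S : Set V, z ∉ S → Crs s t S e1 → Crs s t S e2 → 4 ≤ dcut s t S) :
    TEC (spS s e1 e2 z) (spT t e1 e2 z) := by
  classical
  -- sets containing the new vertex and not z
  have main : ∀ S : Set (Option V), none ∈ S → some z ∉ S →
      3 ≤ dcut (spS s e1 e2 z) (spT t e1 e2 z) S := by
    intro S hn hz
    have hkey := dcut_sep s t e1 e2 z hne h1 h2 S hn hz
    have hzS : z ∉ (some ⁻¹' S : Set V) := hz
    by_cases hS : (some ⁻¹' S : Set V).Nonempty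
    · have hge := h3 _ hS ⟨z, hzS⟩
      have hp' := hp _ hzS
      by_cases c1 : Crs s t (some ⁻¹' S) e1 <;> by_cases c2 : Crs s t (some ⁻¹' S) e2
      · have := hp' c1 c2
        rw [if_pos c1, if_pos c2] at hkey
        omega
      · rw [if_pos c1, if_neg c2] at hkey
        omega
      · rw [if_neg c1, if_pos c2] at hkey
        omega
      · rw [if_neg c1, if_neg c2] at hkey
        omega
    · rw [Set.not_nonempty_iff_eq_empty] at hS
      have c : ∀ e, ¬ Crs s t (some ⁻¹' S : Set V) e := by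
        intro e
        unfold Crs
        rw [hS]
        simp
      rw [if_neg (c e1), if_neg (c e2)] at hkey
      omega
  intro S hS hSc
  by_cases hn : none ∈ S <;> by_cases hz : some z ∈ S
  · have hpre : S = proj z ⁻¹' (some ⁻¹' S) := by
      ext o
      cases o with
      | none => simp [proj, hn, hz]
      | some x => simp [proj]
    rw [hpre, dcut_same]
    refine h3 _ ⟨z, hz⟩ ?_
    obtain ⟨o, ho⟩ := hSc
    cases o with
    | none => exact absurd hn ho
    | some x => exact ⟨x, ho⟩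
  · exact main S hn hz
  · rw [← dcut_compl]
    exact main Sᶜ hn (fun h => h hz)
  · have hpre : S = proj z ⁻¹' (some ⁻¹' S) := by
      ext o
      cases o with
      | none => simp [proj, hn, hz]
      | some x => simp [proj]
    rw [hpre, dcut_same]
    refine h3 _ ?_ ⟨z, hz⟩
    obtain ⟨o, ho⟩ := hS
    cases o with
    | none => exact absurd ho hn
    | some x => exact ⟨x, ho⟩

lemma dcut_none (s t : E → V) (e1 e2 : E) (z : V) (hne : e1 ≠ e2)
    (h1 : Crs s t {z} e1) (h2 : Crs s t {z} e2) :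
    dcut (spS s e1 e2 z) (spT t e1 e2 z) {none} = 3 := by
  have hkey := dcut_sep s t e1 e2 z hne h1 h2 {none} (by simp) (by simp)
  have hemp : (some ⁻¹' {none} : Set V) = ∅ := by
    ext x
    simp
  have c : ∀ e, ¬ Crs s t (∅ : Set V) e := by
    intro e
    unfold Crs
    simp
  have h0 : dcut s t (∅ : Set V) = 0 := by
    unfold dcut
    exact Finset.sum_eq_zero fun e _ => if_neg (c e)
  rw [hemp, if_neg (c e1), if_neg (c e2), h0] at hkey
  omega

lemma dcut_some_ne (s t : E → V) (e1 e2 : E) (z v : V) (hv : v ≠ z) :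
    dcut (spS s e1 e2 z) (spT t e1 e2 z) {some v} = dcut s t {v} := by
  have : ({some v} : Set (Option V)) = proj z ⁻¹' {v} := by
    ext o
    cases o with
    | none => simp [proj, hv.symm]
    | some x => simp [proj]
  rw [this, dcut_same]

lemma dcut_some_self (s t : E → V) (e1 e2 : E) (z : V) (hne : e1 ≠ e2)
    (h1 : Crs s t {z} e1) (h2 : Crs s t {z} e2) :
    dcut (spS s e1 e2 z) (spT t e1 e2 z) {some z} + 1 = dcut s t {z} := by
  have hkey := dcut_sep s t e1 e2 z hne h1 h2 ({some z}ᶜ) (by simp) (by simp)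
  have hc : (some ⁻¹' ({some z}ᶜ : Set (Option V)) : Set V) = ({z} : Set V)ᶜ := by
    ext x
    simp
  rw [hc, if_pos ((crs_compl s t {z} e1).2 h1), if_pos ((crs_compl s t {z} e2).2 h2), dcut_compl,
    dcut_compl] at hkey
  omega

omit [Fintype E] in
/-- transfer of the colouring of the split graph -/
lemma transfer {n : ℕ} (s t : E → V) (e1 e2 : E) (z : V) (c : Option E → Fin n)
    (hc : ∀ (i : Fin n) (S : Set (Option V)), S.Nonempty → Sᶜ.Nonempty →
      2 ≤ {e | c e ≠ i ∧ ¬ (spS s e1 e2 z e ∈ S ↔ spT t e1 e2 z e ∈ S)}.ncard)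
    (i : Fin n) (S : Set V) (hS : S.Nonempty) (hSc : Sᶜ.Nonempty) :
    2 ≤ {e | c (some e) ≠ i ∧ ¬ (s e ∈ S ↔ t e ∈ S)}.ncard := by
  have h := hc i (proj z ⁻¹' S) (by
    obtain ⟨x, hx⟩ := hS
    exact ⟨some x, hx⟩) (by
    obtain ⟨x, hx⟩ := hSc
    exact ⟨some x, hx⟩)
  have himg : {e | c e ≠ i ∧ ¬ (spS s e1 e2 z e ∈ proj z ⁻¹' S ↔ spT t e1 e2 z e ∈ proj z ⁻¹' S)} =
      some '' {e | c (some e) ≠ i ∧ ¬ (s e ∈ S ↔ t e ∈ S)} := by
    ext o
    cases o with
    | none =>
      constructor
      · intro h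
        exact absurd h.2 (crs_proj_none s t e1 e2 z S)
      · rintro ⟨x, -, hx⟩
        exact absurd hx (by simp)
    | some e =>
      simp only [Set.mem_ofPred_eq, Set.mem_image, Option.some.injEq, exists_eq_right]
      exact and_congr Iff.rfl (crs_proj_some s t e1 e2 z S e)
  rw [himg, Set.ncard_image_of_injective _ (Option.some_injective E)] at h
  exact h

end

/-- the induction: loopless graphs in `Type` -/
lemma red_aux (n : ℕ)
    (H : ∀ (V E : Type) [Finite V] [Finite E] [Nontrivial V] (s t : E → V), (∀ e, s e ≠ t e) →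
      (∀ v, {e | s e = v ∨ t e = v}.ncard = 3) →
      (∀ S : Set V, S.Nonempty → Sᶜ.Nonempty → 3 ≤ {e | ¬ (s e ∈ S ↔ t e ∈ S)}.ncard) →
      ∃ c : E → Fin n, ∀ (i : Fin n) (S : Set V), S.Nonempty → Sᶜ.Nonempty →
        2 ≤ {e | c e ≠ i ∧ ¬ (s e ∈ S ↔ t e ∈ S)}.ncard) :
    ∀ (m : ℕ) (V E : Type) [Fintype V] [Fintype E] [Nontrivial V] (s t : E → V),
      (∀ e, s e ≠ t e) → TEC s t → ∑ v, (dcut s t {v} - 3) = m →
      ∃ c : E → Fin n, ∀ (i : Fin n) (S : Set V), S.Nonempty → Sᶜ.Nonempty →
        2 ≤ {e | c e ≠ i ∧ ¬ (s e ∈ S ↔ t e ∈ S)}.ncard := by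
  intro m
  induction m with
  | zero =>
    intro V E _ _ _ s t hloop htec hm
    refine H V E s t hloop (fun v => ?_) (fun S h1 h2 => ?_)
    · have h0 : dcut s t {v} - 3 = 0 :=
        (Finset.sum_eq_zero_iff.1 hm) v (Finset.mem_univ v)
      obtain ⟨w, hw⟩ := exists_ne v
      have h3 := htec {v} ⟨v, rfl⟩ ⟨w, hw⟩
      have hd : dcut s t {v} = 3 := by omega
      rw [dcut_eq_ncard] at hd
      rw [← hd]
      congr 1
      ext e
      have := hloop e
      simp only [Set.mem_ofPred_eq, Set.mem_singleton_iff]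
      constructor
      · rintro (h | h) h'
        · exact this (h.trans (h'.1 h).symm)
        · exact this ((h'.2 h).trans h.symm)
      · intro h
        by_contra h'
        push Not at h'
        exact h (by simp [h'.1, h'.2])
    · rw [← dcut_eq_ncard]
      exact htec S h1 h2
  | succ m ih =>
    intro V E _ _ _ s t hloop htec hm
    have hz : ∃ z, 4 ≤ dcut s t {z} := by
      by_contra h
      push Not at h
      have : ∑ v, (dcut s t {v} - 3) = 0 := Finset.sum_eq_zero fun v _ => by
        have := h v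
        omega
      omega
    obtain ⟨z, hz⟩ := hz
    obtain ⟨e1, e2, hne, h1, h2, hp⟩ := exists_pair s t htec z hz
    have htec' := tec_split s t htec e1 e2 z hne h1 h2 hp
    have hloop' : ∀ e, spS s e1 e2 z e ≠ spT t e1 e2 z e := by
      intro e
      cases e with
      | none => simp [spS, spT]
      | some e =>
        intro h
        have := congrArg (proj z) h
        simp only [spS, spT, proj_mv] at this
        exact hloop e this
    have hm' : ∑ v, (dcut (spS s e1 e2 z) (spT t e1 e2 z) {v} - 3) = m := by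
      classical
      rw [Fintype.sum_option, dcut_none s t e1 e2 z hne h1 h2]
      have hsp : ∀ g : V → ℕ, ∑ v, g v = g z + ∑ v ∈ Finset.univ.erase z, g v := fun g =>
        (Finset.add_sum_erase _ _ (Finset.mem_univ z)).symm
      rw [hsp] at hm
      rw [hsp (fun v => dcut (spS s e1 e2 z) (spT t e1 e2 z) {some v} - 3)]
      have heq : ∑ v ∈ Finset.univ.erase z, (dcut (spS s e1 e2 z) (spT t e1 e2 z) {some v} - 3) =
          ∑ v ∈ Finset.univ.erase z, (dcut s t {v} - 3) := by
        refine Finset.sum_congr rfl fun v hv => ?_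
        rw [dcut_some_ne s t e1 e2 z v (Finset.mem_erase.1 hv).1]
      have hself := dcut_some_self s t e1 e2 z hne h1 h2
      rw [heq]
      omega
    obtain ⟨c, hc⟩ := ih (Option V) (Option E) _ _ hloop' htec' hm'
    exact ⟨fun e => c (some e), fun i S hS hSc => transfer s t e1 e2 z c hc i S hS hSc⟩

/-- **Reduction to cubic graphs.** -/
theorem reduce_cubic (n : ℕ) [NeZero n]
    (H : ∀ (V E : Type) [Finite V] [Finite E] [Nontrivial V] (s t : E → V), (∀ e, s e ≠ t e) →
      (∀ v, {e | s e = v ∨ t e = v}.ncard = 3) →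
      (∀ S : Set V, S.Nonempty → Sᶜ.Nonempty → 3 ≤ {e | ¬ (s e ∈ S ↔ t e ∈ S)}.ncard) →
      ∃ c : E → Fin n, ∀ (i : Fin n) (S : Set V), S.Nonempty → Sᶜ.Nonempty →
        2 ≤ {e | c e ≠ i ∧ ¬ (s e ∈ S ↔ t e ∈ S)}.ncard)
    {V E : Type*} [Finite V] [Finite E] (s t : E → V)
    (h3 : ∀ S : Set V, S.Nonempty → Sᶜ.Nonempty → 3 ≤ {e | ¬ (s e ∈ S ↔ t e ∈ S)}.ncard) :
    ∃ c : E → Fin n, ∀ (i : Fin n) (S : Set V), S.Nonempty → Sᶜ.Nonempty →
      2 ≤ {e | c e ≠ i ∧ ¬ (s e ∈ S ↔ t e ∈ S)}.ncard := by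
  classical
  rcases subsingleton_or_nontrivial V with hV | hV
  · refine ⟨fun _ => 0, fun i S hS hSc => ?_⟩
    obtain ⟨x, hx⟩ := hS
    obtain ⟨y, hy⟩ := hSc
    exact absurd (Subsingleton.elim x y ▸ hx) hy
  -- models in `Type`
  have fV := Fintype.ofFinite V
  have fE := Fintype.ofFinite {e : E // s e ≠ t e}
  let φ : V ≃ Fin (Fintype.card V) := Fintype.equivFin V
  let ψ : {e : E // s e ≠ t e} ≃ Fin (Fintype.card {e : E // s e ≠ t e}) := Fintype.equivFin _
  have hNon : Nontrivial (Fin (Fintype.card V)) := φ.symm.nontrivial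
  let s' : Fin (Fintype.card {e : E // s e ≠ t e}) → Fin (Fintype.card V) := fun e =>
    φ (s (ψ.symm e).1)
  let t' : Fin (Fintype.card {e : E // s e ≠ t e}) → Fin (Fintype.card V) := fun e =>
    φ (t (ψ.symm e).1)
  have hloop : ∀ e, s' e ≠ t' e := fun e h => (ψ.symm e).2 (φ.injective h)
  -- comparison of cuts
  have hcmp : ∀ (S : Set (Fin (Fintype.card V))) (P : E → Prop),
      {e | P e ∧ ¬ (s e ∈ φ ⁻¹' S ↔ t e ∈ φ ⁻¹' S)} =
        (fun e => (ψ.symm e).1) '' {e | P (ψ.symm e).1 ∧ ¬ (s' e ∈ S ↔ t' e ∈ S)} := by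
    intro S P
    ext e
    simp only [Set.mem_ofPred_eq, Set.mem_preimage, Set.mem_image]
    constructor
    · rintro ⟨hP, h⟩
      have hne : s e ≠ t e := fun h' => h (by rw [h'])
      refine ⟨ψ ⟨e, hne⟩, ?_, by simp⟩
      simp only [s', t', Equiv.symm_apply_apply]
      exact ⟨hP, h⟩
    · rintro ⟨f, ⟨hP, h⟩, rfl⟩
      exact ⟨hP, h⟩
  have hinj : Function.Injective (fun e => (ψ.symm e).1 :
      Fin (Fintype.card {e : E // s e ≠ t e}) → E) :=
    Subtype.val_injective.comp ψ.symm.injective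
  have htec : TEC s' t' := by
    intro S hS hSc
    have h := h3 (φ ⁻¹' S) (by
      obtain ⟨x, hx⟩ := hS
      exact ⟨φ.symm x, by simpa using hx⟩) (by
      obtain ⟨x, hx⟩ := hSc
      exact ⟨φ.symm x, by simpa using hx⟩)
    have h' := hcmp S (fun _ => True)
    simp only [true_and] at h'
    rw [h', Set.ncard_image_of_injective _ hinj] at h
    rw [dcut_eq_ncard]
    exact h
  obtain ⟨c, hc⟩ := red_aux n H _ _ _ s' t' hloop htec rfl
  refine ⟨fun e => if h : s e ≠ t e then c (ψ ⟨e, h⟩) else 0, fun i S hS hSc => ?_⟩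
  have h := hc i (φ.symm ⁻¹' S) (by
    obtain ⟨x, hx⟩ := hS
    exact ⟨φ x, by simpa using hx⟩) (by
    obtain ⟨x, hx⟩ := hSc
    exact ⟨φ x, by simpa using hx⟩)
  have hS' : φ ⁻¹' (φ.symm ⁻¹' S) = S := by
    ext x
    simp
  have h' := hcmp (φ.symm ⁻¹' S) (fun e => (if h : s e ≠ t e then c (ψ ⟨e, h⟩) else 0) ≠ i)
  rw [hS'] at h'
  rw [h', Set.ncard_image_of_injective _ hinj]
  refine h.trans (le_of_eq ?_)
  congr 1
  ext e
  have he : (ψ.symm e).1 = (ψ.symm e).1 := rfl
  simp only [Set.mem_ofPred_eq]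
  rw [dif_pos (ψ.symm e).2]
  simp

end Pool.Agent.Lib.P5f333b
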